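import Mathlib

set_option autoImplicit false

namespace Pool.Agent.Results.MP_1b3da4_an.ContinuousFunctions

open Filter Topology

set_option linter.unusedSectionVars false

variable {𝕜 : Type*} [RCLike 𝕜] {K : Type*} [MetricSpace K] [CompactSpace K]

/-- the real bump `max 0 (1 - j * dist s t)` -/
noncomputable def br (t : K) (j : ℕ) (s : K) : ℝ := max 0 (1 - j * dist s t)

theorem br_cont (t : K) (j : ℕ) : Continuous (br t j) := by
  unfold br
  fun_prop

theorem br_nonneg (t : K) (j : ℕ) (s : K) : 0 ≤ br t j s := le_max_left _ _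

theorem br_le_one (t : K) (j : ℕ) (s : K) : br t j s ≤ 1 := by
  unfold br
  refine max_le zero_le_one ?_
  have : 0 ≤ (j : ℝ) * dist s t := by positivity
  linarith

theorem br_anti (t : K) (j : ℕ) (s : K) : br t (j + 1) s ≤ br t j s := by
  unfold br
  refine max_le_max le_rfl ?_
  have : 0 ≤ dist s t := dist_nonneg
  push_cast
  nlinarith

theorem br_zero (t : K) (s : K) : br t 0 s = 1 := by
  unfold br
  simp

theorem br_self (t : K) (j : ℕ) : br t j t = 1 := by
  unfold br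
  simp

theorem br_eq_zero (t : K) (j : ℕ) (s : K) (h : 1 ≤ j * dist s t) : br t j s = 0 := by
  unfold br
  exact max_eq_left (by linarith)

/-- the bump as a continuous function -/
noncomputable def bm (t : K) (j : ℕ) : C(K, 𝕜) :=
  ⟨fun s => ((br t j s : ℝ) : 𝕜), RCLike.continuous_ofReal.comp (br_cont t j)⟩

theorem bm_apply (t : K) (j : ℕ) (s : K) : (bm t j : C(K, 𝕜)) s = ((br t j s : ℝ) : 𝕜) := rfl

/-- a phase of a number -/
theorem phase (a : 𝕜) : ∃ c : 𝕜, ‖c‖ ≤ 1 ∧ c * a = ((‖a‖ : ℝ) : 𝕜) := by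
  by_cases ha : a = 0
  · exact ⟨0, by simp, by simp [ha]⟩
  · refine ⟨(‖a‖ : 𝕜) / a, ?_, ?_⟩
    · rw [norm_div, RCLike.norm_ofReal, abs_norm, div_self (norm_ne_zero_iff.2 ha)]
    · rw [div_mul_cancel₀ _ ha]

/-- partial sums of the telescoping increments -/
theorem sum_bound (t : K) (h : C(K, 𝕜) →L[𝕜] 𝕜) (N : ℕ) :
    ∑ i ∈ Finset.range N, ‖h (bm t i - bm t (i + 1))‖ ≤ ‖h‖ := by
  choose c hc1 hc2 using fun a : 𝕜 => phase a
  obtain ⟨f, hf⟩ : ∃ f : C(K, 𝕜), f = ∑ i ∈ Finset.range N,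
    c (h (bm t i - bm t (i + 1))) • (bm t i - bm t (i + 1)) := ⟨_, rfl⟩
  have h1 : h f = ((∑ i ∈ Finset.range N, ‖h (bm t i - bm t (i + 1))‖ : ℝ) : 𝕜) := by
    rw [hf, map_sum]
    push_cast
    refine Finset.sum_congr rfl fun i _ => ?_
    rw [map_smul, smul_eq_mul, hc2]
  have h2 : ‖f‖ ≤ 1 := by
    rw [ContinuousMap.norm_le _ zero_le_one]
    intro s
    rw [hf, ContinuousMap.sum_apply]
    refine (norm_sum_le _ _).trans ?_
    have h3 : ∀ i ∈ Finset.range N,
        ‖(c (h (bm t i - bm t (i + 1))) • (bm t i - bm t (i + 1)) : C(K, 𝕜)) s‖ ≤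
          br t i s - br t (i + 1) s := by
      intro i _
      rw [ContinuousMap.smul_apply, ContinuousMap.sub_apply, bm_apply, bm_apply, smul_eq_mul,
        norm_mul, ← RCLike.ofReal_sub, RCLike.norm_ofReal,
        abs_of_nonneg (sub_nonneg.2 (br_anti t i s))]
      exact mul_le_of_le_one_left (sub_nonneg.2 (br_anti t i s)) (hc1 _)
    refine (Finset.sum_le_sum h3).trans ?_
    rw [Finset.sum_range_sub', br_zero]
    have := br_nonneg t N s
    linarith
  have h4 : ‖h f‖ ≤ ‖h‖ := by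
    refine (h.le_opNorm f).trans ?_
    exact mul_le_of_le_one_right (norm_nonneg h) h2
  rw [h1, RCLike.norm_ofReal, abs_of_nonneg (Finset.sum_nonneg fun i _ => norm_nonneg _)] at h4
  exact h4

theorem summ (t : K) (h : C(K, 𝕜) →L[𝕜] 𝕜) :
    Summable fun i => h (bm t i - bm t (i + 1)) := by
  apply Summable.of_norm
  exact summable_of_sum_range_le (c := ‖h‖) (fun i => norm_nonneg _) (sum_bound t h)

/-- the mass of a functional at the point `t` -/
noncomputable def mm (t : K) (h : C(K, 𝕜) →L[𝕜] 𝕜) : 𝕜 :=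
  h (bm t 0) - ∑' i, h (bm t i - bm t (i + 1))

theorem tendsto_mm (t : K) (h : C(K, 𝕜) →L[𝕜] 𝕜) :
    Tendsto (fun N => h (bm t N)) atTop (𝓝 (mm t h)) := by
  have h1 := (summ t h).hasSum.tendsto_sum_nat
  have h2 := (tendsto_const_nhds (x := h (bm t 0))).sub h1
  refine h2.congr fun N => ?_
  rw [← map_sum, Finset.sum_range_sub', map_sub]
  ring

theorem norm_bm (t : K) (j : ℕ) : ‖(bm t j : C(K, 𝕜))‖ ≤ 1 := by
  rw [ContinuousMap.norm_le _ zero_le_one]
  intro s
  rw [bm_apply, RCLike.norm_ofReal, abs_of_nonneg (br_nonneg t j s)]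
  exact br_le_one t j s

theorem norm_mm_le (t : K) (h : C(K, 𝕜) →L[𝕜] 𝕜) : ‖mm t h‖ ≤ ‖h‖ := by
  refine le_of_tendsto (tendsto_mm t h).norm (Eventually.of_forall fun N => ?_)
  exact (h.le_opNorm _).trans (mul_le_of_le_one_right (norm_nonneg h) (norm_bm t N))

/-- the mass at `t` as a functional on the dual -/
noncomputable def mL (t : K) : (C(K, 𝕜) →L[𝕜] 𝕜) →L[𝕜] 𝕜 :=
  LinearMap.mkContinuous
    { toFun := mm t
      map_add' := by
        intro f g
        refine tendsto_nhds_unique (tendsto_mm t (f + g)) ?_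
        exact ((tendsto_mm t f).add (tendsto_mm t g)).congr fun N => rfl
      map_smul' := by
        intro c f
        refine tendsto_nhds_unique (tendsto_mm t (c • f)) ?_
        exact ((tendsto_mm t f).const_mul c).congr fun N => rfl } 1 (by
      intro f
      rw [one_mul]
      exact norm_mm_le t f)

theorem mL_apply (t : K) (h : C(K, 𝕜) →L[𝕜] 𝕜) : mL t h = mm t h := rfl

/-- point evaluations -/
noncomputable def dd (s : K) : C(K, 𝕜) →L[𝕜] 𝕜 := ContinuousMap.evalCLM 𝕜 s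

theorem dd_apply (s : K) (x : C(K, 𝕜)) : dd s x = x s := rfl

theorem mm_dd_self (t : K) : mm t (dd t : C(K, 𝕜) →L[𝕜] 𝕜) = 1 := by
  refine tendsto_nhds_unique (tendsto_mm t _) ?_
  refine tendsto_const_nhds.congr fun N => ?_
  rw [dd_apply, bm_apply, br_self, RCLike.ofReal_one]

theorem mm_dd_ne (t s : K) (hst : s ≠ t) : mm t (dd s : C(K, 𝕜) →L[𝕜] 𝕜) = 0 := by
  refine tendsto_nhds_unique (tendsto_mm t _) ?_
  refine tendsto_const_nhds.congr' ?_
  obtain ⟨N, hN⟩ := exists_nat_ge (1 / dist s t)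
  filter_upwards [eventually_ge_atTop N] with j hj
  rw [dd_apply, bm_apply, br_eq_zero t j s, RCLike.ofReal_zero]
  have h1 : 0 < dist s t := dist_pos.2 hst
  have h2 : (N : ℝ) ≤ j := by exact_mod_cast hj
  rw [div_le_iff₀ h1] at hN
  nlinarith

/-- a norm one functional attaining its norm at `z` has no mass where `‖z t‖ < 1` -/
theorem key (t : K) (h : C(K, 𝕜) →L[𝕜] 𝕜) (z : C(K, 𝕜)) (hh : ‖h‖ = 1) (hhz : h z = 1)
    (hzn : ‖z‖ = 1) (hz : ‖z t‖ < 1) : mm t h = 0 := by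
  obtain ⟨r, hr0, hr1, hr2⟩ : ∃ r : ℝ, 0 < r ∧ ‖z t‖ < r ∧ r < 1 := by
    refine ⟨(1 + ‖z t‖) / 2, ?_, by linarith, by linarith⟩
    have := norm_nonneg (z t)
    linarith
  -- near `t` we have `‖z‖ < r`
  have hev : ∀ᶠ s in 𝓝 t, ‖z s‖ < r :=
    (z.continuous.norm.tendsto t).eventually (gt_mem_nhds hr1)
  obtain ⟨ε, hε, hball⟩ := Metric.eventually_nhds_iff.1 hev
  obtain ⟨N, hN⟩ := exists_nat_ge (1 / ε)
  have hsupp : ∀ j, N ≤ j → ∀ s, br t j s ≠ 0 → ‖z s‖ < r := by
    intro j hj s hs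
    apply hball
    by_contra hcon
    push Not at hcon
    apply hs
    apply br_eq_zero
    have h2 : (N : ℝ) ≤ j := by exact_mod_cast hj
    rw [div_le_iff₀ hε] at hN
    nlinarith
  refine tendsto_nhds_unique (tendsto_mm t h) ?_
  refine tendsto_const_nhds.congr' ?_
  filter_upwards [eventually_ge_atTop N] with j hj
  symm
  obtain ⟨c, hc1, hc2⟩ := phase (h (bm t j))
  -- test function: c (1 - r) bm + z
  have h3 : ‖z + ((1 - r : ℝ) : 𝕜) • c • (bm t j : C(K, 𝕜))‖ ≤ 1 := by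
    rw [ContinuousMap.norm_le _ zero_le_one]
    intro s
    rw [ContinuousMap.add_apply, ContinuousMap.smul_apply, ContinuousMap.smul_apply, bm_apply,
      smul_eq_mul, smul_eq_mul]
    refine (norm_add_le _ _).trans ?_
    rw [norm_mul, norm_mul, RCLike.norm_ofReal, RCLike.norm_ofReal,
      abs_of_nonneg (br_nonneg t j s), abs_of_nonneg (by linarith : (0 : ℝ) ≤ 1 - r)]
    by_cases hs : br t j s = 0
    · rw [hs, mul_zero, mul_zero, add_zero, ← hzn]
      exact z.norm_coe_le_norm s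
    · have h4 := hsupp j hj s hs
      have h5 : ‖c‖ * br t j s ≤ 1 := by
        calc ‖c‖ * br t j s ≤ 1 * 1 :=
              mul_le_mul hc1 (br_le_one t j s) (br_nonneg t j s) zero_le_one
          _ = 1 := one_mul 1
      nlinarith
  have h6 : ‖h (z + ((1 - r : ℝ) : 𝕜) • c • (bm t j : C(K, 𝕜)))‖ ≤ 1 := by
    refine (h.le_opNorm _).trans ?_
    rw [hh, one_mul]
    exact h3
  rw [map_add, map_smul, map_smul, hhz, smul_eq_mul, smul_eq_mul, hc2] at h6
  have h7 : (1 : 𝕜) + ((1 - r : ℝ) : 𝕜) * ((‖h (bm t j)‖ : ℝ) : 𝕜) =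
      ((1 + (1 - r) * ‖h (bm t j)‖ : ℝ) : 𝕜) := by
    push_cast
    ring
  rw [h7, RCLike.norm_ofReal] at h6
  have h8 := (le_abs_self _).trans h6
  have h9 : ‖h (bm t j)‖ ≤ 0 := by
    by_contra hcon
    push Not at hcon
    nlinarith
  exact norm_le_zero_iff.1 h9

theorem ev_zero (z : ℕ → C(K, 𝕜)) (h : ℕ → (C(K, 𝕜) →L[𝕜] 𝕜))
    (hbi : ∀ i j : ℕ, h i (z j) = if i = j then 1 else 0) (g : C(K, 𝕜) →L[𝕜] 𝕜)
    (hg : g ∈ Submodule.span 𝕜 (Set.range h)) : ∃ N, ∀ n, N ≤ n → g (z n) = 0 := by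
  induction hg using Submodule.span_induction with
  | mem f hf =>
    obtain ⟨m, rfl⟩ := hf
    refine ⟨m + 1, fun n hn => ?_⟩
    rw [hbi, if_neg (by omega)]
  | zero => exact ⟨0, fun n _ => rfl⟩
  | add f₁ f₂ _ _ ih₁ ih₂ =>
    obtain ⟨N₁, h₁⟩ := ih₁
    obtain ⟨N₂, h₂⟩ := ih₂
    refine ⟨max N₁ N₂, fun n hn => ?_⟩
    change f₁ (z n) + f₂ (z n) = 0
    rw [h₁ n (le_trans (le_max_left _ _) hn), h₂ n (le_trans (le_max_right _ _) hn), add_zero]
  | smul c f _ ih =>
    obtain ⟨N, h₁⟩ := ih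
    refine ⟨N, fun n hn => ?_⟩
    change c * f (z n) = 0
    rw [h₁ n hn, mul_zero]

theorem no_system (T : Set K) (hT : Dense T) (t : K) (htT : t ∈ T) (ht : (𝓝[≠] t).NeBot)
    (z : ℕ → C(K, 𝕜)) (h : ℕ → (C(K, 𝕜) →L[𝕜] 𝕜))
    (hbi : ∀ i j : ℕ, h i (z j) = if i = j then 1 else 0)
    (hno : ∀ n : ℕ, ‖z n‖ = 1 ∧ ‖h n‖ = 1)
    (hV : Submodule.span 𝕜 (dd '' T) ≤ (Submodule.span 𝕜 (Set.range h)).topologicalClosure) :
    False := by
  have hdd : ∀ s ∈ T, dd s ∈ (Submodule.span 𝕜 (Set.range h)).topologicalClosure := fun s hs =>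
    hV (Submodule.subset_span ⟨s, hs, rfl⟩)
  by_cases hA : {n : ℕ | mm t (h n) ≠ 0}.Finite
  · obtain ⟨x, hx⟩ : ∃ x : C(K, 𝕜), x = ∑ n ∈ hA.toFinset, mm t (h n) • z n := ⟨_, rfl⟩
    have h1 : ∀ m, mm t (h m) = h m x := by
      intro m
      rw [hx, map_sum]
      simp only [map_smul, smul_eq_mul, hbi]
      by_cases hm : mm t (h m) = 0
      · rw [hm, Finset.sum_eq_zero]
        intro n hn
        have h2 : mm t (h n) ≠ 0 := by simpa using hn
        have h3 : m ≠ n := by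
          rintro rfl
          exact h2 hm
        rw [if_neg h3, mul_zero]
      · rw [Finset.sum_eq_single m]
        · rw [if_pos rfl, mul_one]
        · intro n _ hn
          rw [if_neg hn.symm, mul_zero]
        · intro hn
          exact absurd (by simpa using hm) hn
    have h2 : (Submodule.span 𝕜 (Set.range h)).topologicalClosure ≤
        LinearMap.ker ((mL t - ContinuousLinearMap.apply 𝕜 𝕜 x :
          (C(K, 𝕜) →L[𝕜] 𝕜) →L[𝕜] 𝕜) : (C(K, 𝕜) →L[𝕜] 𝕜) →ₗ[𝕜] 𝕜) := by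
      apply Submodule.topologicalClosure_minimal
      · rw [Submodule.span_le]
        rintro _ ⟨m, rfl⟩
        change mL t (h m) - (h m) x = 0
        rw [mL_apply, h1, sub_self]
      · exact ContinuousLinearMap.isClosed_ker (mL t - ContinuousLinearMap.apply 𝕜 𝕜 x)
    have h3 : ∀ s ∈ T, mm t (dd s) = x s := by
      intro s hs
      have h4 : mL t (dd s) - (dd s) x = 0 := h2 (hdd s hs)
      rw [mL_apply, dd_apply] at h4
      exact sub_eq_zero.1 h4
    have h4 : x t = 1 := by rw [← h3 t htT, mm_dd_self]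
    have h5 : t ∈ closure (T \ {t}) := by
      rw [mem_closure_iff_nhds]
      intro U hU
      obtain ⟨W, hWU, hWo, htW⟩ := mem_nhds_iff.1 hU
      obtain ⟨s, hs⟩ : (W ∩ {t}ᶜ).Nonempty := by
        have := (ht.nonempty_of_mem (inter_mem_nhdsWithin {t}ᶜ (hWo.mem_nhds htW)))
        obtain ⟨s, hs⟩ := this
        exact ⟨s, hs.2, hs.1⟩
      obtain ⟨s', hs', hs'T⟩ := hT.inter_open_nonempty (W ∩ {t}ᶜ)
        (hWo.inter isOpen_compl_singleton) ⟨s, hs⟩
      exact ⟨s', hWU hs'.1, hs'T, hs'.2⟩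
    have h6 : x t = 0 := by
      have h7 : closure (T \ {t}) ⊆ {s | x s = 0} := by
        apply closure_minimal
        · rintro s ⟨hs, hst⟩
          have : mm t (dd s) = x s := h3 s hs
          rw [mm_dd_ne t s hst] at this
          exact this.symm
        · exact isClosed_singleton.preimage x.continuous
      exact h7 h5
    rw [h4] at h6
    exact one_ne_zero h6
  · obtain ⟨g, hg, hgd⟩ : ∃ g ∈ (Submodule.span 𝕜 (Set.range h)), dist (dd t) g < 1 := by
      have h1 : dd t ∈ closure (Submodule.span 𝕜 (Set.range h) : Set (C(K, 𝕜) →L[𝕜] 𝕜)) :=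
        hdd t htT
      exact Metric.mem_closure_iff.1 h1 1 one_pos
    obtain ⟨N, hN⟩ := ev_zero z h hbi g hg
    obtain ⟨n, hnA, hn⟩ : ∃ n ∈ {n : ℕ | mm t (h n) ≠ 0}, N ≤ n := by
      by_contra hcon
      push Not at hcon
      exact hA ((Set.finite_lt_nat N).subset fun n hn => hcon n hn)
    apply hnA
    apply key t (h n) (z n) (hno n).2 (by rw [hbi, if_pos rfl]) (hno n).1
    obtain ⟨e, he⟩ : ∃ e : C(K, 𝕜) →L[𝕜] 𝕜, e = dd t - g := ⟨_, rfl⟩
    have h4 : ‖e (z n)‖ ≤ ‖e‖ * ‖z n‖ := e.le_opNorm _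
    rw [(hno n).1, mul_one] at h4
    have h5 : e (z n) = z n t := by
      rw [he]
      change dd t (z n) - g (z n) = _
      rw [hN n hn, sub_zero, dd_apply]
    rw [h5] at h4
    refine lt_of_le_of_lt h4 ?_
    rw [he]
    exact lt_of_eq_of_lt (dist_eq_norm (dd t) g).symm hgd

theorem infinite_dim (𝕜 : Type*) [RCLike 𝕜] (K : Type*) [MetricSpace K] [CompactSpace K]
    [Infinite K] : ¬ FiniteDimensional 𝕜 C(K, 𝕜) := by
  classical
  intro hfin
  have hli : LinearIndependent 𝕜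
      (fun s : K => ((dd s : C(K, 𝕜) →L[𝕜] 𝕜) : C(K, 𝕜) →ₗ[𝕜] 𝕜)) := by
    rw [linearIndependent_iff']
    intro S g hg i hi
    obtain ⟨f, hf1, hf2, _⟩ := exists_continuous_zero_one_of_isClosed
      (s := ((S.erase i : Finset K) : Set K)) (t := {i}) (Finset.finite_toSet _).isClosed
      isClosed_singleton (by
        rw [Set.disjoint_singleton_right]
        simp)
    obtain ⟨F, hF⟩ : ∃ F : C(K, 𝕜), ∀ x, F x = ((f x : ℝ) : 𝕜) :=
      ⟨⟨fun x => ((f x : ℝ) : 𝕜), RCLike.continuous_ofReal.comp f.continuous⟩, fun _ => rfl⟩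
    have h1 := congrArg (fun e : C(K, 𝕜) →ₗ[𝕜] 𝕜 => e F) hg
    simp only [LinearMap.sum_apply, LinearMap.smul_apply, LinearMap.zero_apply,
      ContinuousLinearMap.coe_coe, dd_apply, hF, smul_eq_mul] at h1
    rw [Finset.sum_eq_single i] at h1
    · rw [hf2 (Set.mem_singleton i)] at h1
      simpa using h1
    · intro b hb hbi
      rw [hf1 (Finset.mem_coe.2 (Finset.mem_erase.2 ⟨hbi, hb⟩))]
      simp
    · intro h
      exact absurd hi h
  have hf : Finite K := hli.finite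
  exact not_finite K

/-- For every infinite compact metric space `K` and `𝕜 = ℝ` or `ℂ` the separable infinite
dimensional Banach space `C(K, 𝕜)` has a norm separable total subspace `V` of the dual which is
not contained in the closed span of the functionals of any biorthogonal sequence with all norms
one. -/
theorem result (𝕜 : Type*) [RCLike 𝕜] (K : Type*) [MetricSpace K] [CompactSpace K]
    [Infinite K] :
    TopologicalSpace.SeparableSpace C(K, 𝕜) ∧ ¬ FiniteDimensional 𝕜 C(K, 𝕜) ∧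
    ∃ V : Submodule 𝕜 (C(K, 𝕜) →L[𝕜] 𝕜),
      TopologicalSpace.IsSeparable (V : Set (C(K, 𝕜) →L[𝕜] 𝕜)) ∧
      (∀ x : C(K, 𝕜), x ≠ 0 → ∃ f ∈ V, f x ≠ 0) ∧
      ∀ (z : ℕ → C(K, 𝕜)) (h : ℕ → (C(K, 𝕜) →L[𝕜] 𝕜)),
        (∀ i j : ℕ, h i (z j) = if i = j then 1 else 0) →
        (∀ n : ℕ, ‖z n‖ = 1 ∧ ‖h n‖ = 1) →
        ¬ V ≤ (Submodule.span 𝕜 (Set.range h)).topologicalClosure := by
  have : SecondCountableTopology K := UniformSpace.secondCountable_of_separable K
  refine ⟨inferInstance, infinite_dim 𝕜 K, ?_⟩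
  obtain ⟨t, ht⟩ := exists_nhds_ne_neBot K
  obtain ⟨T₀, hT₀c, hT₀⟩ := TopologicalSpace.exists_countable_dense K
  have hT : Dense (insert t T₀) := hT₀.mono (Set.subset_insert _ _)
  have hTc : (insert t T₀).Countable := hT₀c.insert t
  refine ⟨Submodule.span 𝕜 (dd '' (insert t T₀)), (hTc.image _).isSeparable.span, ?_, ?_⟩
  · intro x hx
    by_contra hcon
    push Not at hcon
    apply hx
    have h1 : ∀ s ∈ insert t T₀, x s = 0 := fun s hs =>
      hcon (dd s) (Submodule.subset_span ⟨s, hs, rfl⟩)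
    have h2 : closure (insert t T₀) ⊆ {s | x s = 0} :=
      closure_minimal h1 (isClosed_singleton.preimage x.continuous)
    ext s
    exact h2 (hT s)
  · intro z h hbi hno hV
    exact no_system (insert t T₀) hT t (Set.mem_insert _ _) ht z h hbi hno hV

end Pool.Agent.Results.MP_1b3da4_an.ContinuousFunctions
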